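import Pool.Agent.Helper69K1.Gr.Stm

/-!
# Basic facts on iterated commutators
-/

namespace Pool.Agent.Helper69K1.Gr

open Module Pool.Agent.Helper69K1

section

variable {S : Type} [Ring S] [Algebra ℚ S]

lemma com_succ (h : Submodule ℚ S) (j : ℕ) :
    com h (j + 1) = Submodule.span ℚ {c | ∃ a ∈ h, ∃ b ∈ com h j, c = a * b - b * a} := rfl

lemma com_br (h : Submodule ℚ S) {j : ℕ} {a b : S} (ha : a ∈ h) (hb : b ∈ com h j) :
    a * b - b * a ∈ com h (j + 1) := by
  rw [com_succ]
  exact Submodule.subset_span ⟨a, ha, b, hb, rfl⟩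

lemma com_bracket (h : Submodule ℚ S) : ∀ i j : ℕ, ∀ a ∈ com h i, ∀ b ∈ com h j,
    a * b - b * a ∈ com h (i + j + 1) := by
  intro i
  induction i with
  | zero =>
    intro j a ha b hb
    rw [zero_add]
    exact com_br h ha hb
  | succ i ih =>
    intro j a ha b hb
    rw [com_succ] at ha
    have e1 : i + 1 + j + 1 = (i + j + 1) + 1 := by ring
    have e2 : i + (j + 1) + 1 = (i + j + 1) + 1 := by ring
    rw [e1]
    refine Submodule.span_induction (p := fun a _ => a * b - b * a ∈ com h (i + j + 1 + 1))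
      ?_ ?_ ?_ ?_ ha
    · rintro c ⟨a', ha', b', hb', rfl⟩
      have h1 := com_br h ha' (ih j b' hb' b hb)
      have h2 := ih (j + 1) b' hb' _ (com_br h ha' hb)
      rw [e2] at h2
      have e : (a' * b' - b' * a') * b - b * (a' * b' - b' * a') =
          (a' * (b' * b - b * b') - (b' * b - b * b') * a') -
          (b' * (a' * b - b * a') - (a' * b - b * a') * b') := by noncomm_ring
      rw [e]
      exact Submodule.sub_mem _ h1 h2
    · simp
    · intro x y _ _ hx hy
      have e : (x + y) * b - b * (x + y) = (x * b - b * x) + (y * b - b * y) := by noncomm_ring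
      rw [e]
      exact Submodule.add_mem _ hx hy
    · intro r x _ hx
      have e : (r • x) * b - b * (r • x) = r • (x * b - b * x) := by
        rw [smul_mul_assoc, mul_smul_comm, smul_sub]
      rw [e]
      exact Submodule.smul_mem _ _ hx

lemma com_mono_of_le (h : Submodule ℚ S) (k : ℕ) (hk : com h k ≤ h) :
    ∀ j, com h (j + k) ≤ com h j := by
  intro j
  induction j with
  | zero => rw [zero_add]; exact hk
  | succ j ih =>
    have e : j + 1 + k = (j + k) + 1 := by ring
    rw [e, com_succ, com_succ]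
    apply Submodule.span_mono
    rintro c ⟨a, ha, b, hb, rfl⟩
    exact ⟨a, ha, b, ih hb, rfl⟩

lemma com_mono (h h' : Submodule ℚ S) (hh : h ≤ h') : ∀ j, com h j ≤ com h' j := by
  intro j
  induction j with
  | zero => exact hh
  | succ j ih =>
    rw [com_succ, com_succ]
    apply Submodule.span_mono
    rintro c ⟨a, ha, b, hb, rfl⟩
    exact ⟨a, hh ha, b, ih hb, rfl⟩

lemma com_map (h : Submodule ℚ S) (T : Type) [Ring T] [Algebra ℚ T] (f : S →ₐ[ℚ] T) :
    ∀ j, com (h.map f.toLinearMap) j = (com h j).map f.toLinearMap := by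
  intro j
  induction j with
  | zero => rfl
  | succ j ih =>
    rw [com_succ, com_succ, Submodule.map_span, ih]
    congr 1
    ext c
    constructor
    · rintro ⟨a, ⟨a0, ha0, rfl⟩, b, ⟨b0, hb0, rfl⟩, rfl⟩
      refine ⟨a0 * b0 - b0 * a0, ⟨a0, ha0, b0, hb0, rfl⟩, ?_⟩
      simp
    · rintro ⟨_, ⟨a0, ha0, b0, hb0, rfl⟩, rfl⟩
      refine ⟨f a0, ⟨a0, ha0, rfl⟩, f b0, ⟨b0, hb0, rfl⟩, ?_⟩
      simp

end

theorem t_COM : S_COM := by
  intro S _ _ h
  exact ⟨com_bracket h, fun k hk => com_mono_of_le h k hk, fun h' hh => com_mono h h' hh,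
    fun T _ _ f j => com_map h T f j⟩

end Pool.Agent.Helper69K1.Gr
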